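import Pool.Agent.L0h7.RG.Stm

/-! # Projective modules over group rings of free groups over regular rings -/

set_option autoImplicit false

open CategoryTheory

noncomputable section

namespace Pool.Agent.L0h66.RG

open Pool.Agent.Y75.NK Pool.Agent.L0h7.KN Pool.Agent.L0h7.RG

theorem W_proj {A : Type} [Ring A] (e : Idem A) : Module.Projective A (W e) := by
  refine Module.Projective.of_split (W e).subtype e.e.vecMulLinear.rangeRestrict ?_
  apply LinearMap.ext
  rintro ⟨_, v, rfl⟩
  apply Subtype.ext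
  change Matrix.vecMul (Matrix.vecMul v e.e) e.e = Matrix.vecMul v e.e
  rw [Matrix.vecMul_vecMul, e.idem]

theorem W_finite {A : Type} [Ring A] (e : Idem A) : Module.Finite A (W e) :=
  Module.Finite.range _

/-- a short exact sequence with projective end splits -/
theorem split_equiv {A M' M M'' : Type} [Ring A] [AddCommGroup M'] [Module A M'] [AddCommGroup M]
    [Module A M] [AddCommGroup M''] [Module A M''] (f : M' →ₗ[A] M) (g : M →ₗ[A] M'')
    (hf : Function.Injective f) (hg : Function.Surjective g)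
    (h : LinearMap.range f = LinearMap.ker g) [Module.Projective A M''] :
    Nonempty ((M' × M'') ≃ₗ[A] M) := by
  obtain ⟨s, hs⟩ := Module.projective_lifting_property g LinearMap.id hg
  have hgs : ∀ y, g (s y) = y := fun y => LinearMap.congr_fun hs y
  have hgf : ∀ x, g (f x) = 0 := by
    intro x
    have : f x ∈ LinearMap.ker g := by rw [← h]; exact ⟨x, rfl⟩
    exact this
  refine ⟨LinearEquiv.ofBijective (f.coprod s) ⟨?_, ?_⟩⟩
  · rw [← LinearMap.ker_eq_bot, LinearMap.ker_eq_bot']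
    rintro ⟨a, b⟩ hab
    rw [LinearMap.coprod_apply] at hab
    have h1 := congrArg g hab
    rw [map_add, hgf, hgs, zero_add, map_zero] at h1
    have h1' : b = 0 := h1
    subst h1'
    rw [map_zero, add_zero] at hab
    have h2 : a = 0 := hf (by rw [map_zero]; exact hab)
    rw [h2]
    rfl
  · intro y
    have h1 : y - s (g y) ∈ LinearMap.range f := by
      rw [h, LinearMap.mem_ker, map_sub, hgs, sub_self]
    obtain ⟨a, ha⟩ := h1
    refine ⟨(a, g y), ?_⟩
    rw [LinearMap.coprod_apply, ha, sub_add_cancel]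

theorem t_K0S (h1 : S_ECA) (h2 : S_ECB) (h3 : S_IND) (h4 : S_TRE) : S_K0S := by
  intro A _ hA n x
  have key : ∀ p : Idem (MonoidAlgebra A (FreeGroup (Fin n))),
      ∃ c, K0.map (io A (FreeGroup (Fin n))) c = cls p := by
    intro p
    have hproj := W_proj p
    have hfin := W_finite p
    have hfp : Module.FinitePresentation (MonoidAlgebra A (FreeGroup (Fin n))) (W p) :=
      Module.finitePresentation_of_projective _ _
    obtain ⟨N₀, N₁, i0, i1, j0, j1, f0, f1, f, g, hf, hg, hfg⟩ := h4 A hA.1 n (W p) hfp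
    obtain ⟨n0, p0⟩ := hA.2 N₀ f0
    obtain ⟨n1, p1⟩ := hA.2 N₁ f1
    obtain ⟨c0, e0⟩ := h1.2.2.2 A n0 N₀ p0
    obtain ⟨c1, e1⟩ := h1.2.2.2 A n1 N₁ p1
    have E0 := h3.2.1 A (FreeGroup (Fin n)) n0 N₀ c0 e0
    have E1 := h3.2.1 A (FreeGroup (Fin n)) n1 N₁ c1 e1
    have E2 := h1.2.2.1 _ n1 _ _ E1 p
    have E3 := h1.1 _ n1 _ _ _ (split_equiv f g hf hg hfg) E2
    have E4 := h2 _ n0 n1 _ _ _ E0 E3
    refine ⟨c0 - c1, ?_⟩
    rw [map_sub, E4, add_sub_cancel_left]
  obtain ⟨e, f, rfl⟩ := exists_sub x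
  obtain ⟨c, hc⟩ := key e
  obtain ⟨d, hd⟩ := key f
  exact ⟨c - d, by rw [map_sub, hc, hd]⟩

end Pool.Agent.L0h66.RG
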