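import Pool.Agent.L0h7.RG.Stm

/-! # Negative `K`-groups of group rings of free groups over regular rings -/

set_option autoImplicit false

open CategoryTheory

noncomputable section

namespace Pool.Agent.L0h66.RG

open Pool.Agent.Y75.NK Pool.Agent.L0h7.KN Pool.Agent.L0h7.RG

/-- isomorphisms induce surjections of `K₀` -/
theorem K0_map_equiv_surj {A B : Type} [Ring A] [Ring B] (ρ : A ≃+* B) :
    Function.Surjective (K0.map ρ.toRingHom) := by
  intro y
  refine ⟨K0.map ρ.symm.toRingHom y, ?_⟩
  have h1 := DFunLike.congr_fun (K0.map_comp ρ.toRingHom ρ.symm.toRingHom) y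
  have h2 : ρ.toRingHom.comp ρ.symm.toRingHom = RingHom.id B := by
    apply RingHom.ext
    intro b
    exact ρ.apply_symm_apply b
  rw [h2, K0.map_id] at h1
  exact h1.symm

/-- the vanishing of the values of a functor is invariant under isomorphisms -/
theorem obj_zero (G : RingCat.{0} ⥤ AddCommGrpCat.{0}) {A B : Type} [Ring A] [Ring B]
    (ρ : A ≃+* B) (h : ∀ y : G.obj (RingCat.of B), y = 0) (x : G.obj (RingCat.of A)) : x = 0 := by
  let i : RingCat.of A ⟶ RingCat.of B := RingCat.ofHom ρ.toRingHom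
  let j : RingCat.of B ⟶ RingCat.of A := RingCat.ofHom ρ.symm.toRingHom
  have hij : i ≫ j = 𝟙 _ := by
    apply RingCat.hom_ext
    apply RingHom.ext
    intro a
    exact ρ.symm_apply_apply a
  have h1 : (G.map j).hom ((G.map i).hom x) = x := by
    have h2 : G.map i ≫ G.map j = 𝟙 _ := by rw [← G.map_comp, hij, G.map_id]
    exact congrArg (fun z => z.hom x) h2
  rw [h ((G.map i).hom x), map_zero] at h1
  exact h1.symm

/-- classes over `A[t, t⁻¹]` come from `A` -/
theorem surj_Z (h1 : S_K0S) (A : Type) [Ring A] (hA : Reg A) :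
    Function.Surjective (K0.map (io A (Multiplicative ℤ))) := by
  have h2 := h1 A hA 1
  let ρ : MonoidAlgebra A (FreeGroup (Fin 1)) ≃+* MonoidAlgebra A (Multiplicative ℤ) :=
    MonoidAlgebra.mapDomainRingEquiv A (FreeGroup.mulEquivIntOfUnique (α := Fin 1))
  have h3 : ρ.toRingHom.comp (io A (FreeGroup (Fin 1))) = io A (Multiplicative ℤ) := by
    apply RingHom.ext
    intro a
    change MonoidAlgebra.mapDomainRingEquiv A (FreeGroup.mulEquivIntOfUnique (α := Fin 1))
      (MonoidAlgebra.single 1 a) = MonoidAlgebra.single 1 a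
    rw [MonoidAlgebra.mapDomainRingEquiv_single, map_one]
  rw [← h3, K0.map_comp]
  exact (K0_map_equiv_surj ρ).comp h2

/-- classes over `A[F][t, t⁻¹]` come from `A` -/
theorem surj_ZF (h1 : S_K0S) (h2 : S_RGZ) (A : Type) [Ring A] (hA : Reg A) (n : ℕ) :
    Function.Surjective (K0.map
      ((io (MonoidAlgebra A (FreeGroup (Fin n))) (Multiplicative ℤ)).comp
        (io A (FreeGroup (Fin n))))) := by
  have h3 := surj_Z h1 A hA
  have h4 := h1 (MonoidAlgebra A (Multiplicative ℤ)) (h2 A hA) n
  let σ : MonoidAlgebra (MonoidAlgebra A (Multiplicative ℤ)) (FreeGroup (Fin n)) ≃+*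
    MonoidAlgebra (MonoidAlgebra A (FreeGroup (Fin n))) (Multiplicative ℤ) :=
    MonoidAlgebra.commRingEquiv
  have h5 : (io (MonoidAlgebra A (FreeGroup (Fin n))) (Multiplicative ℤ)).comp
      (io A (FreeGroup (Fin n))) = σ.toRingHom.comp
        ((io (MonoidAlgebra A (Multiplicative ℤ)) (FreeGroup (Fin n))).comp
          (io A (Multiplicative ℤ))) := by
    apply RingHom.ext
    intro a
    change MonoidAlgebra.single 1 (MonoidAlgebra.single 1 a) =
      MonoidAlgebra.commRingEquiv (MonoidAlgebra.single 1 (MonoidAlgebra.single 1 a))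
    rw [MonoidAlgebra.commRingEquiv_single_single]
  rw [h5, K0.map_comp, K0.map_comp]
  exact (K0_map_equiv_surj σ).comp (h4.comp h3)

theorem t_KNF (h1 : S_K0S) (h2 : S_RGZ) : S_KNF := by
  intro A _ hA n m
  induction m generalizing A with
  | zero =>
    intro x
    obtain ⟨y, rfl⟩ := QuotientAddGroup.mk'_surjective
      (polySub (Kneg 0) (RingCat.of (MonoidAlgebra A (FreeGroup (Fin n))))) x
    obtain ⟨c, hc⟩ := surj_ZF h1 h2 A hA n y
    have hmem : y ∈ polySub (Kneg 0) (RingCat.of (MonoidAlgebra A (FreeGroup (Fin n)))) := by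
      refine AddSubgroup.mem_sup_left ?_
      let ψ : A →+* MonoidAlgebra (MonoidAlgebra A (FreeGroup (Fin n))) (Multiplicative ℕ) :=
        (MonoidAlgebra.singleOneRingHom : MonoidAlgebra A (FreeGroup (Fin n)) →+* _).comp
          (io A (FreeGroup (Fin n)))
      refine ⟨K0.map ψ c, ?_⟩
      let P : MonoidAlgebra (MonoidAlgebra A (FreeGroup (Fin n))) (Multiplicative ℕ) →+*
          MonoidAlgebra (MonoidAlgebra A (FreeGroup (Fin n))) (Multiplicative ℤ) :=
        MonoidAlgebra.mapDomainRingHom _ (AddMonoidHom.toMultiplicative (Nat.castAddMonoidHom ℤ))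
      have h5 : (io (MonoidAlgebra A (FreeGroup (Fin n))) (Multiplicative ℤ)).comp
          (io A (FreeGroup (Fin n))) = P.comp ψ := by
        apply RingHom.ext
        intro a
        change MonoidAlgebra.single 1 (MonoidAlgebra.single 1 a) =
          MonoidAlgebra.mapDomainRingHom _ _ (MonoidAlgebra.single 1 (MonoidAlgebra.single 1 a))
        rw [MonoidAlgebra.mapDomainRingHom_apply, MonoidAlgebra.mapDomain_single, map_one]
      rw [h5, K0.map_comp] at hc
      exact hc
    exact (QuotientAddGroup.eq_zero_iff y).2 hmem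
  | succ m ih =>
    intro x
    obtain ⟨y, rfl⟩ := QuotientAddGroup.mk'_surjective
      (polySub (Kneg (m + 1)) (RingCat.of (MonoidAlgebra A (FreeGroup (Fin n))))) x
    have hy : y = 0 := by
      refine obj_zero (Kneg (m + 1))
        (A := MonoidAlgebra (MonoidAlgebra A (FreeGroup (Fin n))) (Multiplicative ℤ))
        (B := MonoidAlgebra (MonoidAlgebra A (Multiplicative ℤ)) (FreeGroup (Fin n)))
        MonoidAlgebra.commRingEquiv ?_ y
      exact ih (MonoidAlgebra A (Multiplicative ℤ)) (h2 A hA)
    exact (congrArg (QuotientAddGroup.mk' (polySub (Kneg (m + 1))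
      (RingCat.of (MonoidAlgebra A (FreeGroup (Fin n)))))) hy).trans (map_zero _)

end Pool.Agent.L0h66.RG
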