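import Pool.Agent.L0h91.RG.PEX

/-! # Resolutions by arbitrary finitely generated projective modules -/

set_option autoImplicit false

noncomputable section

namespace Pool.Agent.L0h66.RG

open Pool.Agent.Y75.NK Pool.Agent.L0h7.RG Pool.Agent.L0h91.RG

theorem pd_le {A : Type} [Ring A] {M : Type} [AddCommGroup M] [Module A M] (h : PD A 0 M) :
    ∀ n, PD A n M
  | 0 => h
  | n + 1 => pd_succ n (pd_le h n)

/-- One step of a resolution: the module in degree zero may be any finitely generated projective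
module. -/
theorem pd_step {A : Type} [Ring A] (n : ℕ) {M P : Type} [AddCommGroup M] [Module A M]
    [AddCommGroup P] [Module A P] (hf : Module.Finite A P) (hp : Module.Projective A P)
    (π : P →ₗ[A] M) (hs : Function.Surjective π) (hk : PD A n (LinearMap.ker π)) :
    PD A (n + 1) M := by
  obtain ⟨k, ρ, hρ⟩ := Module.Finite.exists_fin' A P
  refine ⟨k, π.comp ρ, hs.comp hρ, ?_⟩
  have hle : LinearMap.ker ρ ≤ LinearMap.ker (π.comp ρ) := LinearMap.ker_le_ker_comp ρ π
  have hmap : ∀ x ∈ LinearMap.ker (π.comp ρ), ρ x ∈ LinearMap.ker π := fun x hx => hx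
  refine pd_ext n (Submodule.inclusion hle) (ρ.restrict hmap) (Submodule.inclusion_injective hle)
    ?_ ?_ (pd_le (pd_ker ρ hρ) n) hk
  · rintro ⟨y, hy⟩
    obtain ⟨x, rfl⟩ := hρ y
    exact ⟨⟨x, hy⟩, rfl⟩
  · ext ⟨x, hx⟩
    constructor
    · rintro ⟨⟨y, hy⟩, hxy⟩
      have : y = x := congrArg Subtype.val hxy
      subst this
      exact Subtype.ext hy
    · intro h
      exact ⟨⟨x, congrArg Subtype.val h⟩, rfl⟩

/-- Finite resolutions as sequences: `P i = 0` for `i > n`. -/
theorem pd_of_seq {A : Type} [Ring A] : ∀ (n : ℕ) (M : Type) [AddCommGroup M] [Module A M]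
    (P : ℕ → Type) [∀ i, AddCommGroup (P i)] [∀ i, Module A (P i)]
    (d : ∀ i, P (i + 1) →ₗ[A] P i) (ε : P 0 →ₗ[A] M),
    (∀ i, Module.Finite A (P i) ∧ Module.Projective A (P i)) →
    (∀ i, n < i → Subsingleton (P i)) → Function.Surjective ε →
    LinearMap.range (d 0) = LinearMap.ker ε →
    (∀ i, LinearMap.range (d (i + 1)) = LinearMap.ker (d i)) → PD A n M
  | 0, M, _, _, P, _, _, d, ε, hP, h0, hs, h1, h2 => by
    obtain ⟨hf, hp⟩ := hP 0
    have hsub := h0 1 (by omega)
    have hk : LinearMap.ker ε = ⊥ := by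
      rw [← h1, eq_bot_iff]
      rintro _ ⟨y, rfl⟩
      rw [Subsingleton.elim y 0, map_zero]
      exact Submodule.zero_mem _
    have e : P 0 ≃ₗ[A] M := LinearEquiv.ofBijective ε ⟨LinearMap.ker_eq_bot.1 hk, hs⟩
    exact ⟨Module.Finite.equiv e, Module.Projective.of_equiv e⟩
  | n + 1, M, _, _, P, _, _, d, ε, hP, h0, hs, h1, h2 => by
    have hmem : ∀ x, d 0 x ∈ LinearMap.ker ε := fun x => h1 ▸ LinearMap.mem_range_self (d 0) x
    refine pd_step n (hP 0).1 (hP 0).2 ε hs ?_
    refine pd_of_seq n (LinearMap.ker ε) (fun i => P (i + 1)) (fun i => d (i + 1))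
      ((d 0).codRestrict (LinearMap.ker ε) hmem) (fun i => hP (i + 1))
      (fun i hi => h0 (i + 1) (by omega)) ?_ ?_ (fun i => h2 (i + 1))
    · rintro ⟨y, hy⟩
      rw [← h1] at hy
      obtain ⟨x, rfl⟩ := hy
      exact ⟨x, rfl⟩
    · rw [LinearMap.ker_codRestrict]
      exact h2 0

end Pool.Agent.L0h66.RG
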