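import Pool.Agent.L0h7.RG.Stm

/-! # Uniform vanishing for abelian groups -/

set_option autoImplicit false

open CategoryTheory

noncomputable section

namespace Pool.Agent.L0h66.RG

open Pool.Agent.Y75.NK Pool.Agent.L0h7.KN Pool.Agent.L0h7.RG

/-- the class of abelian groups -/
def Ab (G : GrpCat.{0}) : Prop := ∀ a b : G, a * b = b * a

/-- groups which are locally embeddable into abelian groups are abelian -/
theorem ab_of_LE (G : GrpCat.{0}) (h : LE Ab G) : Ab G := by
  classical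
  intro a b
  obtain ⟨Q, f, hQ, hmul, hinj⟩ := h {a, b, a * b, b * a}
  apply hinj (a * b) (by simp) (b * a) (by simp)
  rw [hmul a (by simp) b (by simp), hmul b (by simp) a (by simp)]
  exact hQ _ _

/-- the uniform theorem -/
theorem uniform_ab (hM : S_MAIN) (hMNO : S_MNO) (hK : S_KTA) (R : Type) [Ring R] (hR : Reg R)
    (m : ℕ) (n d : ℕ) (M : Matrix (Fin d) (Fin d) (MonoidAlgebra R ((EF (m + 1)).obj (fm n)))) :
    ∃ L : ℕ, ∀ (G : GrpCat.{0}), Ab G → ∀ f : fm n ⟶ G,
      ev R (m + 1) M f * ev R (m + 1) M f = ev R (m + 1) M f → NoTors f L →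
      Triv R (m + 1) M (toPG n (rels f L)) ∧ Triv R (m + 1) M f := by
  obtain ⟨L, hL⟩ := (hM Ab R (m + 1)).1
    (fun G hT hLE x => hK R hR G (ab_of_LE G hLE) hT m x) n d M
  refine ⟨L, fun G hG f hf hN => ?_⟩
  have h1 := hL G hG f hf hN
  refine ⟨h1, ?_⟩
  have h2 : Triv R (m + 1) M (toPG n (rels f L) ≫ fromPG f (rels f L) (fun w hw => hw.2)) :=
    hMNO R (m + 1) n d M _ _ _ _ h1
  rw [toPG_from] at h2
  exact h2

end Pool.Agent.L0h66.RG
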